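import Mathlib

/-!
# Project EB, package SPR: integers of `ℚ(√5)` other than `0, 1, -1` are hyperbolic
-/

set_option autoImplicit false

namespace Pool.Agent.P8H21.EB.Spr

open NumberField

lemma no_rat (r : ℚ) (h : r ^ 2 = r + 1) : False := by
  have h5 : Irrational (√((5 : ℕ) : ℝ)) := Nat.Prime.irrational_sqrt (by norm_num)
  apply h5
  have h1 : ((2 * r - 1 : ℚ) : ℝ) ^ 2 = ((5 : ℕ) : ℝ) := by
    have : (2 * r - 1) ^ 2 = 5 := by nlinarith
    exact_mod_cast congrArg (fun q : ℚ => (q : ℝ)) this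
  refine ⟨|2 * r - 1|, ?_⟩
  rw [← h1, Real.sqrt_sq_eq_abs]
  push_cast
  rfl

/-- all embeddings are real. -/
lemma real_emb (K : Type) [Field K] [NumberField K] (hK : Module.finrank ℚ K = 2) (u : K)
    (hu : u ^ 2 = u + 1) (φ : K →+* ℂ) (x : K) : φ x = ((φ x).re : ℂ) := by
  have hpr : Nat.Prime (Module.finrank ℚ K) := by
    rw [hK]
    exact Nat.prime_two
  have hs : IsSimpleOrder (IntermediateField ℚ K) :=
    IntermediateField.isSimpleOrder_of_finrank_prime ℚ K hpr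
  let E : IntermediateField ℚ K :=
    (RingHom.eqLocusField φ (ComplexEmbedding.conjugate φ)).toIntermediateField (fun q => by
      show φ (algebraMap ℚ K q) = ComplexEmbedding.conjugate φ (algebraMap ℚ K q)
      rw [eq_ratCast, map_ratCast, map_ratCast])
  have huE : u ∈ E := by
    show φ u = ComplexEmbedding.conjugate φ u
    rw [ComplexEmbedding.conjugate_coe_eq]
    have h1 : (φ u) ^ 2 = φ u + 1 := by
      rw [← map_pow, hu, map_add, map_one]
    have h2 : ((φ u).im : ℝ) = 0 := by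
      have hre := congrArg Complex.re h1
      have him := congrArg Complex.im h1
      simp only [pow_two, Complex.mul_re, Complex.mul_im, Complex.add_re, Complex.add_im,
        Complex.one_re, Complex.one_im] at hre him
      by_contra h0
      have h3 : (φ u).re = 1 / 2 := by
        have : (φ u).im * (2 * (φ u).re - 1) = 0 := by linarith
        rcases mul_eq_zero.1 this with h | h
        · exact absurd h h0
        · linarith
      rw [h3] at hre
      nlinarith [mul_self_nonneg ((φ u).im)]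
    exact (Complex.conj_eq_iff_im.2 h2).symm
  have hE : E = ⊤ := by
    rcases eq_bot_or_eq_top E with h | h
    · exfalso
      rw [h, IntermediateField.mem_bot] at huE
      obtain ⟨r, hr⟩ := huE
      apply no_rat r
      apply (algebraMap ℚ K).injective
      rw [map_pow, hr, hu, map_add, hr, map_one]
    · exact h
  have hx : x ∈ E := by
    rw [hE]
    exact IntermediateField.mem_top
  have hx' : φ x = ComplexEmbedding.conjugate φ x := hx
  rw [ComplexEmbedding.conjugate_coe_eq] at hx'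
  exact (Complex.conj_eq_iff_re.1 hx'.symm).symm

theorem spr_core (K : Type) [Field K] [NumberField K] (hK : Module.finrank ℚ K = 2) (u : 𝓞 K)
    (hu : u ^ 2 = u + 1) (β : 𝓞 K) (h0 : β ≠ 0) (h1 : β ≠ 1) (hm : β ≠ -1) :
    ∃ (t : ℝ) (ν : ℕ), 1 < t ∧ 1 ≤ ν ∧
      ∀ φ : K →+* ℂ, (t ≤ ‖φ (β : K)‖ ∧ ‖φ (β : K)‖ ≤ t ^ ν) ∨ ‖φ (β : K)‖ ≤ t⁻¹ := by
  have huK : (u : K) ^ 2 = (u : K) + 1 := by
    have := congrArg (fun z : 𝓞 K => (z : K)) hu
    simpa using this
  have hβ0 : (β : K) ≠ 0 := by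
    intro h
    exact h0 (RingOfIntegers.coe_eq_zero_iff.1 h)
  have hpos : ∀ φ : K →+* ℂ, 0 < ‖φ (β : K)‖ := fun φ =>
    norm_pos_iff.2 ((map_ne_zero φ).2 hβ0)
  have hne : ∀ φ : K →+* ℂ, ‖φ (β : K)‖ ≠ 1 := by
    intro φ h
    have hr := real_emb K hK u huK φ (β : K)
    rw [hr, Complex.norm_real, Real.norm_eq_abs] at h
    rcases (abs_eq zero_le_one).1 h with h | h
    · rw [h, Complex.ofReal_one, ← map_one φ] at hr
      have := φ.injective hr
      apply h1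
      apply RingOfIntegers.ext
      rw [this]
      simp
    · rw [h, Complex.ofReal_neg, Complex.ofReal_one, ← map_one φ, ← map_neg] at hr
      have := φ.injective hr
      apply hm
      apply RingOfIntegers.ext
      rw [this]
      simp
  have hnonempty : Nonempty (K →+* ℂ) := inferInstance
  obtain ⟨φ0, hφ0⟩ := Finite.exists_min (fun φ : K →+* ℂ => max ‖φ (β : K)‖ ‖φ (β : K)‖⁻¹)
  obtain ⟨φ1, hφ1⟩ := Finite.exists_max (fun φ : K →+* ℂ => ‖φ (β : K)‖)
  have hgt : ∀ φ : K →+* ℂ, 1 < max ‖φ (β : K)‖ ‖φ (β : K)‖⁻¹ := by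
    intro φ
    rcases lt_or_gt_of_ne (hne φ) with h | h
    · exact lt_max_of_lt_right ((one_lt_inv₀ (hpos φ)).2 h)
    · exact lt_max_of_lt_left h
  obtain ⟨n, hn⟩ := pow_unbounded_of_one_lt (‖φ1 (β : K)‖) (hgt φ0)
  refine ⟨max ‖φ0 (β : K)‖ ‖φ0 (β : K)‖⁻¹, n + 1, hgt φ0, by omega, ?_⟩
  intro φ
  have hle := hφ0 φ
  rcases lt_or_gt_of_ne (hne φ) with h | h
  · right
    have h2 : max ‖φ (β : K)‖ ‖φ (β : K)‖⁻¹ = ‖φ (β : K)‖⁻¹ :=
      max_eq_right (h.le.trans ((one_lt_inv₀ (hpos φ)).2 h).le)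
    have h3 : max ‖φ0 (β : K)‖ ‖φ0 (β : K)‖⁻¹ ≤ ‖φ (β : K)‖⁻¹ := by
      rw [← h2]
      exact hle
    exact (le_inv_comm₀ (zero_lt_one.trans (hgt φ0)) (hpos φ)).1 h3
  · left
    have h2 : max ‖φ (β : K)‖ ‖φ (β : K)‖⁻¹ = ‖φ (β : K)‖ :=
      max_eq_left ((inv_lt_one_of_one_lt₀ h).le.trans h.le)
    refine ⟨by rw [← h2]; exact hle, ?_⟩
    calc ‖φ (β : K)‖ ≤ ‖φ1 (β : K)‖ := hφ1 φ
      _ ≤ (max ‖φ0 (β : K)‖ ‖φ0 (β : K)‖⁻¹) ^ n := hn.le
      _ ≤ (max ‖φ0 (β : K)‖ ‖φ0 (β : K)‖⁻¹) ^ (n + 1) :=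
          pow_le_pow_right₀ (hgt φ0).le (Nat.le_succ n)

end Pool.Agent.P8H21.EB.Spr
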