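import Pool.Agent.P8H51.EB.Stm
import Pool.Agent.P8H21.EB.SprCore

/-!
# Project EB, package SPR
-/

set_option autoImplicit false

namespace Pool.Agent.P8H21.EB.Spr

open Pool.Agent.P8H51.EB

/-- package SPR. -/
theorem spr : S_SPR := by
  intro K _ _ hK u hu β h0 h1 hm
  exact spr_core K hK u hu β h0 h1 hm

end Pool.Agent.P8H21.EB.Spr
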